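import Mathlib

-- part MP_fa04ef_co.Upper
section

namespace Pool.Agent.MP_fa04ef_co

open Finset

/-- the functions satisfying `P` have at most `x` different restrictions to `R` -/
def Cov (P : (ℕ → ℕ) → Prop) (R : ℕ → Prop) (x : ℝ) : Prop :=
  ∃ L : Finset (ℕ → ℕ), (L.card : ℝ) ≤ x ∧ ∀ f, P f → ∃ g ∈ L, ∀ i, R i → f i = g i

theorem Cov.mono {P Q : (ℕ → ℕ) → Prop} {R R' : ℕ → Prop} {x y : ℝ} (h : Cov P R x)
    (hP : ∀ f, Q f → P f) (hR : ∀ i, R' i → R i) (hx : x ≤ y) : Cov Q R' y := by
  obtain ⟨L, h1, h2⟩ := h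
  refine ⟨L, h1.trans hx, fun f hf => ?_⟩
  obtain ⟨g, hg, hfg⟩ := h2 f (hP f hf)
  exact ⟨g, hg, fun i hi => hfg i (hR i hi)⟩

theorem Cov.nonneg {P : (ℕ → ℕ) → Prop} {R : ℕ → Prop} {x : ℝ} (h : Cov P R x) : 0 ≤ x := by
  obtain ⟨L, h1, _⟩ := h
  exact le_trans (Nat.cast_nonneg _) h1

theorem cov_false (R : ℕ → Prop) : Cov (fun _ => False) R 0 :=
  ⟨∅, by simp, fun _ h => h.elim⟩

theorem cov_unique {P : (ℕ → ℕ) → Prop} {R : ℕ → Prop}
    (h : ∀ f g, P f → P g → ∀ i, R i → f i = g i) : Cov P R 1 := by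
  by_cases hP : ∃ g, P g
  · obtain ⟨g, hg⟩ := hP
    exact ⟨{g}, by simp, fun f hf => ⟨g, by simp, h f g hf hg⟩⟩
  · exact ⟨∅, by simp, fun f hf => (hP ⟨f, hf⟩).elim⟩

theorem Cov.or {P Q : (ℕ → ℕ) → Prop} {R : ℕ → Prop} {x y : ℝ} (h : Cov P R x)
    (h' : Cov Q R y) : Cov (fun f => P f ∨ Q f) R (x + y) := by
  classical
  obtain ⟨L, h1, h2⟩ := h
  obtain ⟨L', h1', h2'⟩ := h'
  refine ⟨L ∪ L', ?_, fun f hf => ?_⟩
  · have := Finset.card_union_le L L'
    have h3 : ((L ∪ L').card : ℝ) ≤ L.card + L'.card := by exact_mod_cast this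
    linarith
  · rcases hf with hf | hf
    · obtain ⟨g, hg, hfg⟩ := h2 f hf
      exact ⟨g, by simp [hg], hfg⟩
    · obtain ⟨g, hg, hfg⟩ := h2' f hf
      exact ⟨g, by simp [hg], hfg⟩

theorem cov_exists {P : ℕ → (ℕ → ℕ) → Prop} {R : ℕ → Prop} {x : ℕ → ℝ} (T : Finset ℕ)
    (h : ∀ m ∈ T, Cov (P m) R (x m)) : Cov (fun f => ∃ m ∈ T, P m f) R (∑ m ∈ T, x m) := by
  classical
  induction T using Finset.induction_on with
  | empty => exact (cov_false R).mono (by simp) (fun _ h => h) (by simp)
  | insert m T hm ih =>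
    rw [Finset.sum_insert hm]
    refine ((h m (by simp)).or (ih fun m' hm' => h m' (by simp [hm']))).mono ?_ (fun _ h => h) le_rfl
    rintro f ⟨m', hm', hf⟩
    rcases Finset.mem_insert.1 hm' with rfl | hm'
    · exact Or.inl hf
    · exact Or.inr ⟨m', hm', hf⟩

theorem Cov.prod {P Q : (ℕ → ℕ) → Prop} {R R' : ℕ → Prop} {x y : ℝ} (h : Cov P R x)
    (h' : Cov Q R' y) : Cov (fun f => P f ∧ Q f) (fun i => R i ∨ R' i) (x * y) := by
  classical
  have hy := h'.nonneg
  obtain ⟨L, h1, h2⟩ := h
  obtain ⟨L', h1', h2'⟩ := h'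
  refine ⟨Finset.image₂ (fun g g' i => if R i then g i else g' i) L L', ?_, fun f hf => ?_⟩
  · have := Finset.card_image₂_le (fun (g g' : ℕ → ℕ) i => if R i then g i else g' i) L L'
    have h3 : ((Finset.image₂ (fun (g g' : ℕ → ℕ) i => if R i then g i else g' i) L L').card : ℝ)
      ≤ L.card * L'.card := by exact_mod_cast this
    exact h3.trans (mul_le_mul h1 h1' (Nat.cast_nonneg _) (le_trans (Nat.cast_nonneg _) h1))
  · obtain ⟨g, hg, hfg⟩ := h2 f hf.1
    obtain ⟨g', hg', hfg'⟩ := h2' f hf.2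
    refine ⟨_, Finset.mem_image₂_of_mem hg hg', fun i hi => ?_⟩
    by_cases hR : R i
    · simp [hR, hfg i hR]
    · simp [hR, hfg' i (hi.resolve_left hR)]

/-- `f` permutes `R`, with cycles of length at most three, avoiding 231 -/
structure Loc (R : ℕ → Prop) (f : ℕ → ℕ) : Prop where
  maps : ∀ i, R i → R (f i)
  cyc : ∀ i, R i → f (f i) = i ∨ f (f (f i)) = i
  av : ∀ i j k, R i → R j → R k → i < j → j < k → f k < f i → f i < f j → False

theorem inj_of_cyc {f : ℕ → ℕ} {i j : ℕ} (hi : f (f i) = i ∨ f (f (f i)) = i)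
    (hj : f (f j) = j ∨ f (f (f j)) = j) (h : f i = f j) : i = j := by
  rcases hi with hi | hi <;> rcases hj with hj | hj
  · rw [← hi, h, hj]
  · have h1 : f (f j) = i := by rw [← h, hi]
    rw [h1] at hj
    have h2 : f j = j := by rw [← h, hj]
    rw [h2, h2] at h1
    exact h1.symm
  · have h1 : f (f i) = j := by rw [h, hj]
    rw [h1] at hi
    have h2 : f i = i := by rw [h, hi]
    rw [h2, h2] at h1
    exact h1
  · rw [← hi, h, hj]

theorem Loc.inj {R : ℕ → Prop} {f : ℕ → ℕ} (h : Loc R f) {i j : ℕ} (hi : R i) (hj : R j)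
    (e : f i = f j) : i = j := inj_of_cyc (h.cyc i hi) (h.cyc j hj) e

theorem Loc.surj {R : ℕ → Prop} {f : ℕ → ℕ} (h : Loc R f) {v : ℕ} (hv : R v) :
    ∃ i, R i ∧ f i = v := by
  rcases h.cyc v hv with h1 | h1
  · exact ⟨f v, h.maps v hv, h1⟩
  · exact ⟨f (f v), h.maps _ (h.maps v hv), h1⟩

theorem Loc.sub {R R' : ℕ → Prop} {f : ℕ → ℕ} (h : Loc R f) (hs : ∀ i, R' i → R i)
    (hm : ∀ i, R' i → R' (f i)) : Loc R' f :=
  ⟨hm, fun i hi => h.cyc i (hs i hi),
    fun i j k hi hj hk => h.av i j k (hs i hi) (hs j hj) (hs k hk)⟩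

/-- decreasing on `R` -/
def Anti (R : ℕ → Prop) (f : ℕ → ℕ) : Prop := ∀ i j, R i → R j → i < j → f j < f i

theorem anti_unique {R : ℕ → Prop} {f g : ℕ → ℕ} (hf : Loc R f) (hg : Loc R g)
    (af : Anti R f) (ag : Anti R g) : ∀ i, R i → f i = g i := by
  intro i
  induction i using Nat.strong_induction_on with
  | _ i ih =>
    intro hi
    rcases lt_trichotomy (f i) (g i) with h | h | h
    · exfalso
      obtain ⟨j, hj, e⟩ := hf.surj (hg.maps i hi)
      rcases lt_trichotomy j i with h1 | h1 | h1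
      · have := ag j i hj hi h1
        have := ih j h1 hj
        omega
      · subst h1; omega
      · have := af i j hi hj h1
        omega
    · exact h
    · exfalso
      obtain ⟨j, hj, e⟩ := hg.surj (hf.maps i hi)
      rcases lt_trichotomy j i with h1 | h1 | h1
      · have := af j i hj hi h1
        have := ih j h1 hj
        omega
      · subst h1; omega
      · have := ag i j hi hj h1
        omega

theorem cov_anti (R : ℕ → Prop) : Cov (fun f => Loc R f ∧ Anti R f) R 1 :=
  cov_unique fun _ _ hf hg => anti_unique hf.1 hg.1 hf.2 hg.2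

theorem cov_pt3 (a b c u v w : ℕ) :
    Cov (fun f => f a = u ∧ f b = v ∧ f c = w) (fun i => i = a ∨ i = b ∨ i = c) 1 := by
  refine cov_unique fun f g hf hg i hi => ?_
  rcases hi with rfl | rfl | rfl
  · rw [hf.1, hg.1]
  · rw [hf.2.1, hg.2.1]
  · rw [hf.2.2, hg.2.2]

/-- two intervals -/
def Two (a lo hi b : ℕ) (i : ℕ) : Prop := (a ≤ i ∧ i < lo) ∨ (hi ≤ i ∧ i < b)

/-- one interval -/
def One (a b : ℕ) (i : ℕ) : Prop := a ≤ i ∧ i < b

structure St (a lo hi b : ℕ) (f : ℕ → ℕ) : Prop where
  loc : Loc (Two a lo hi b) f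
  left : ∀ i j, a ≤ i → i < j → j < lo → f j < f i
  right : ∀ i j, Two a lo hi b i → Two a lo hi b j → i < j → hi ≤ f i → hi ≤ f j → f j < f i

/-- number of completions of a state -/
def F : ℕ → ℕ → ℕ
  | 0, _ => 1
  | _ + 1, 0 => 1
  | 1, 1 => 2
  | 1, q + 2 => 2 + F 0 q
  | p + 2, 1 => 2 + F p 0
  | p + 2, q + 2 => 2 + F p (q + 1) + F (p + 1) q

theorem F_eq (p q : ℕ) (hp : 1 ≤ p) (hq : 1 ≤ q) :
    F p q = 2 + (if 2 ≤ p then F (p - 2) (q - 1) else 0)
      + (if 2 ≤ q then F (p - 1) (q - 2) else 0) := by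
  match p, q, hp, hq with
  | 1, 1, _, _ => simp [F]
  | 1, q + 2, _, _ => simp [F]
  | p + 2, 1, _, _ => simp [F]
  | p + 2, q + 2, _, _ => simp [F]

theorem F_zero_left (q : ℕ) : F 0 q = 1 := by simp [F]

theorem F_zero_right (p : ℕ) : F p 0 = 1 := by cases p <;> simp [F]

theorem st_step {a lo hi b : ℕ} {f : ℕ → ℕ} (h : St a lo hi b f) (h1 : a < lo) (h2 : lo ≤ hi)
    (h3 : hi < b) :
    ((Loc (One a lo) f ∧ Anti (One a lo) f) ∧ (Loc (One hi b) f ∧ Anti (One hi b) f)) ∨
    (Loc (Two a lo hi b) f ∧ Anti (Two a lo hi b) f) ∨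
    (a + 2 ≤ lo ∧ (f a = b - 1 ∧ f (b - 1) = lo - 1 ∧ f (lo - 1) = a) ∧
      St (a + 1) (lo - 1) hi (b - 1) f) ∨
    (hi + 2 ≤ b ∧ (f a = b - 1 ∧ f (b - 1) = hi ∧ f hi = a) ∧
      St (a + 1) lo (hi + 1) (b - 1) f) := by
  have ha : Two a lo hi b a := Or.inl ⟨le_rfl, h1⟩
  have hb : Two a lo hi b (b - 1) := Or.inr ⟨by omega, by omega⟩
  have hfa := h.loc.maps a ha
  rcases hfa with hfa | hfa
  · left
    have hL : ∀ i, One a lo i → One a lo (f i) := by
      intro i hi'
      have hm := h.loc.maps i (Or.inl hi')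
      obtain ⟨i1, i2⟩ := hi'
      rcases Nat.eq_or_lt_of_le i1 with e | e
      · rw [← e]; exact hfa
      · have := h.left a i le_rfl e i2
        unfold Two at hm; unfold One; omega
    have lL : Loc (One a lo) f := h.loc.sub (fun i hi' => Or.inl hi') hL
    have hR : ∀ i, One hi b i → One hi b (f i) := by
      intro i hi'
      rcases h.loc.maps i (Or.inr hi') with hm | hm
      · exfalso
        obtain ⟨j, hj, e⟩ := lL.surj hm
        have := h.loc.inj (Or.inl hj) (Or.inr hi') e
        unfold One at hj hi'; omega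
      · exact hm
    refine ⟨⟨lL, fun i j hi' hj hij => h.left i j hi'.1 hij hj.2⟩,
      h.loc.sub (fun i hi' => Or.inr hi') hR, fun i j hi' hj hij => ?_⟩
    exact h.right i j (Or.inr hi') (Or.inr hj) hij (hR i hi').1 (hR j hj).1
  · right
    have hab : f a = b - 1 := by
      obtain ⟨j, hj, e⟩ := h.loc.surj hb
      rcases Nat.eq_or_lt_of_le (show a ≤ j by unfold Two at hj; omega) with e1 | e1
      · rw [e1, e]
      · have := h.right a j ha hj e1 hfa.1 (by omega)
        omega
    by_cases h2c : f (b - 1) = a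
    · left
      refine ⟨h.loc, fun i j hi' hj hij => ?_⟩
      have hfi := h.loc.maps i hi'
      have hfj := h.loc.maps j hj
      have hne : f i ≠ f j := fun e => by have := h.loc.inj hi' hj e; omega
      rcases Nat.eq_or_lt_of_le (show j ≤ b - 1 by unfold Two at hj; omega) with e1 | e1
      · rw [e1] at hne ⊢
        unfold Two at hfi; omega
      · by_contra hcon
        have hne2 : f i ≠ f (b - 1) := fun e => by have := h.loc.inj hi' hb e; omega
        exact h.loc.av i j (b - 1) hi' hj hb hij e1 (by unfold Two at hfi; omega) (by omega)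
    · right
      have hc3 : f (f (b - 1)) = a := by
        rcases h.loc.cyc a ha with e | e
        · rw [hab] at e; exact (h2c e).elim
        · rw [hab] at e; exact e
      have hc := h.loc.maps _ hb
      have hcb : f (b - 1) ≠ b - 1 := fun e => by
        have := h.loc.inj ha hb (hab.trans e.symm); omega
      have key : ∀ i, Two a lo hi b i → i ≠ a → i ≠ b - 1 → i ≠ f (b - 1) →
          f i ≠ a ∧ f i ≠ b - 1 ∧ f i ≠ f (b - 1) := by
        intro i hi' n1 n2 n3
        exact ⟨fun e => n3 (h.loc.inj hi' hc (e.trans hc3.symm)),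
          fun e => n1 (h.loc.inj hi' ha (e.trans hab.symm)), fun e => n2 (h.loc.inj hi' hb e)⟩
      rcases hc with hc | hc
      · left
        have hcl : f (b - 1) = lo - 1 := by
          by_contra hne
          have h5 := h.left (f (b - 1)) (lo - 1) hc.1 (by omega) (by omega)
          have h6 := h.loc.maps (lo - 1) (Or.inl ⟨by omega, by omega⟩)
          unfold Two at h6; omega
        rw [hcl] at hc3 key
        have hsub : ∀ i, Two (a + 1) (lo - 1) hi (b - 1) i → Two a lo hi b i := by
          intro i hi'; unfold Two at *; omega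
        refine ⟨by omega, ⟨hab, hcl, hc3⟩, h.loc.sub hsub ?_, ?_, ?_⟩
        · intro i hi'
          have h7 := key i (hsub i hi') (by unfold Two at hi'; omega) (by unfold Two at hi'; omega)
            (by unfold Two at hi'; omega)
          have h8 := h.loc.maps i (hsub i hi')
          unfold Two at *; omega
        · intro i j h7 h8 h9; exact h.left i j (by omega) h8 (by omega)
        · intro i j h7 h8; exact h.right i j (hsub i h7) (hsub j h8)
      · right
        have hcl : f (b - 1) = hi := by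
          by_contra hne
          obtain ⟨j, hj, e⟩ := h.loc.surj (v := hi) (Or.inr ⟨le_rfl, h3⟩)
          have hjb : j ≠ b - 1 := fun e' => hne (e' ▸ e)
          have := h.right j (b - 1) hj hb (by unfold Two at hj; omega) (by omega) hc.1
          omega
        rw [hcl] at hc3 key
        have hsub : ∀ i, Two (a + 1) lo (hi + 1) (b - 1) i → Two a lo hi b i := by
          intro i hi'; unfold Two at *; omega
        refine ⟨by omega, ⟨hab, hcl, hc3⟩, h.loc.sub hsub ?_, ?_, ?_⟩
        · intro i hi'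
          have h7 := key i (hsub i hi') (by unfold Two at hi'; omega) (by unfold Two at hi'; omega)
            (by unfold Two at hi'; omega)
          have h8 := h.loc.maps i (hsub i hi')
          unfold Two at *; omega
        · intro i j h7 h8 h9; exact h.left i j (by omega) h8 h9
        · intro i j h7 h8 h9 h10 h11
          exact h.right i j (hsub i h7) (hsub j h8) h9 (by omega) (by omega)

theorem cov_st (r : ℕ) : ∀ p q a hi : ℕ, p + q ≤ r → a + p ≤ hi →
    Cov (St a (a + p) hi (hi + q)) (Two a (a + p) hi (hi + q)) (F p q) := by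
  induction r using Nat.strong_induction_on with
  | _ r ih =>
    intro p q a hi hr hle
    rcases Nat.eq_zero_or_pos p with rfl | hp
    · rw [F_zero_left, Nat.cast_one]
      refine (cov_anti _).mono (fun f hf => ⟨hf.loc, fun i j h1 h2 h3 => ?_⟩) (fun _ h => h) le_rfl
      have h4 := hf.loc.maps i h1
      have h5 := hf.loc.maps j h2
      exact hf.right i j h1 h2 h3 (by unfold Two at h4; omega) (by unfold Two at h5; omega)
    rcases Nat.eq_zero_or_pos q with rfl | hq
    · rw [F_zero_right, Nat.cast_one]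
      refine (cov_anti _).mono (fun f hf => ⟨hf.loc, fun i j h1 h2 h3 => ?_⟩) (fun _ h => h) le_rfl
      exact hf.left i j (by unfold Two at h1 h2; omega) h3 (by unfold Two at h2; omega)
    have c1 : Cov (fun f => (Loc (One a (a + p)) f ∧ Anti (One a (a + p)) f) ∧
        (Loc (One hi (hi + q)) f ∧ Anti (One hi (hi + q)) f)) (Two a (a + p) hi (hi + q)) 1 :=
      ((cov_anti _).prod (cov_anti _)).mono (fun _ h => h) (fun _ h => h) (by norm_num)
    have c2 := cov_anti (Two a (a + p) hi (hi + q))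
    have c3 : Cov (fun f => a + 2 ≤ a + p ∧
        (f a = hi + q - 1 ∧ f (hi + q - 1) = a + p - 1 ∧ f (a + p - 1) = a) ∧
        St (a + 1) (a + p - 1) hi (hi + q - 1) f) (Two a (a + p) hi (hi + q))
        ((if 2 ≤ p then F (p - 2) (q - 1) else 0 : ℕ) : ℝ) := by
      split_ifs with h2
      · have := ih (r - 1) (by omega) (p - 2) (q - 1) (a + 1) hi (by omega) (by omega)
        rw [show a + 1 + (p - 2) = a + p - 1 by omega, show hi + (q - 1) = hi + q - 1 by omega] at this
        refine ((cov_pt3 a (hi + q - 1) (a + p - 1) _ _ _).prod this).mono (fun f hf => hf.2) ?_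
          (by simp)
        intro i hi'; unfold Two at *; omega
      · exact (cov_false _).mono (fun f hf => by omega) (fun _ h => h) (by simp)
    have c4 : Cov (fun f => hi + 2 ≤ hi + q ∧
        (f a = hi + q - 1 ∧ f (hi + q - 1) = hi ∧ f hi = a) ∧
        St (a + 1) (a + p) (hi + 1) (hi + q - 1) f) (Two a (a + p) hi (hi + q))
        ((if 2 ≤ q then F (p - 1) (q - 2) else 0 : ℕ) : ℝ) := by
      split_ifs with h2
      · have := ih (r - 1) (by omega) (p - 1) (q - 2) (a + 1) (hi + 1) (by omega) (by omega)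
        rw [show a + 1 + (p - 1) = a + p by omega,
          show hi + 1 + (q - 2) = hi + q - 1 by omega] at this
        refine ((cov_pt3 a (hi + q - 1) hi _ _ _).prod this).mono (fun f hf => hf.2) ?_
          (by simp)
        intro i hi'; unfold Two at *; omega
      · exact (cov_false _).mono (fun f hf => by omega) (fun _ h => h) (by simp)
    refine (c1.or (c2.or (c3.or c4))).mono
      (fun f hf => st_step hf (by omega) hle (by omega)) (fun _ h => h) ?_
    rw [F_eq p q hp hq]
    push_cast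
    linarith

/-- total number of completions over all splittings -/
def Gs (r : ℕ) : ℕ := ∑ p ∈ range (r + 1), F p (r - p)

/-- bound for the number of blocks of length `k + 1` -/
def cb (k : ℕ) : ℕ := 1 + if 2 ≤ k then Gs (k - 2) else 0

theorem cov_block (s k : ℕ) :
    Cov (fun f => Loc (One s (s + k + 1)) f ∧ f s = s + k) (One s (s + k + 1)) (cb k) := by
  have c1 := cov_anti (One s (s + k + 1))
  have c2 : Cov (fun f => 2 ≤ k ∧ ∃ p ∈ range (k - 2 + 1),
      (f s = s + k ∧ f (s + k) = s + 1 + p ∧ f (s + 1 + p) = s) ∧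
        St (s + 1) (s + 1 + p) (s + 2 + p) (s + 2 + p + (k - 2 - p)) f) (One s (s + k + 1))
      ((if 2 ≤ k then Gs (k - 2) else 0 : ℕ) : ℝ) := by
    split_ifs with h2
    · unfold Gs
      push_cast
      refine (cov_exists (R := One s (s + k + 1)) _ fun p hp => ?_).mono (fun f hf => hf.2)
        (fun _ h => h) le_rfl
      have := cov_st _ p (k - 2 - p) (s + 1) (s + 2 + p) le_rfl (by omega)
      refine ((cov_pt3 s (s + k) (s + 1 + p) _ _ _).prod this).mono (fun f hf => hf) ?_ (by simp)
      intro i hi'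
      have := Finset.mem_range.1 hp
      unfold Two One at *; omega
    · exact (cov_false _).mono (fun f hf => h2 hf.1) (fun _ h => h) (by simp)
  refine (c1.or c2).mono ?_ (fun _ h => h) (by unfold cb; push_cast; linarith)
  rintro f ⟨hl, hs⟩
  have ha : One s (s + k + 1) s := ⟨le_rfl, by omega⟩
  have hb : One s (s + k + 1) (s + k) := ⟨by omega, by omega⟩
  by_cases h2c : f (s + k) = s
  · left
    refine ⟨hl, fun i j hi' hj hij => ?_⟩
    have hfi := hl.maps i hi'
    have hfj := hl.maps j hj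
    have hne : f i ≠ f j := fun e => by have := hl.inj hi' hj e; omega
    rcases Nat.eq_or_lt_of_le (show j ≤ s + k by unfold One at hj; omega) with e1 | e1
    · rw [e1] at hne ⊢
      unfold One at hfi; omega
    · by_contra hcon
      have hne2 : f i ≠ f (s + k) := fun e => by have := hl.inj hi' hb e; omega
      exact hl.av i j (s + k) hi' hj hb hij e1 (by unfold One at hfi; omega) (by omega)
  · right
    have hc3 : f (f (s + k)) = s := by
      rcases hl.cyc s ha with e | e
      · rw [hs] at e; exact (h2c e).elim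
      · rw [hs] at e; exact e
    have hc := hl.maps _ hb
    have hk0 : k ≠ 0 := by
      rintro rfl
      exact h2c hs
    have hcb : f (s + k) ≠ s + k := fun e => by
      have := hl.inj ha hb (hs.trans e.symm); omega
    have key : ∀ i, One s (s + k + 1) i → i ≠ s → i ≠ s + k → i ≠ f (s + k) →
        f i ≠ s ∧ f i ≠ s + k ∧ f i ≠ f (s + k) := by
      intro i hi' n1 n2 n3
      exact ⟨fun e => n3 (hl.inj hi' hc (e.trans hc3.symm)),
        fun e => n1 (hl.inj hi' ha (e.trans hs.symm)), fun e => n2 (hl.inj hi' hb e)⟩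
    obtain ⟨p, hp⟩ : ∃ p, f (s + k) = s + 1 + p := ⟨f (s + k) - (s + 1), by unfold One at hc; omega⟩
    rw [hp] at hc3 key hc hcb
    have hpk : p + 2 ≤ k := by unfold One at hc; omega
    refine ⟨by omega, p, Finset.mem_range.2 (by omega), ⟨hs, hp, hc3⟩, ?_⟩
    rw [show s + 2 + p + (k - 2 - p) = s + k by omega]
    have hsub : ∀ i, Two (s + 1) (s + 1 + p) (s + 2 + p) (s + k) i → One s (s + k + 1) i := by
      intro i hi'; unfold Two One at *; omega
    refine ⟨hl.sub hsub ?_, ?_, ?_⟩
    · intro i hi'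
      have h7 := key i (hsub i hi') (by unfold Two at hi'; omega) (by unfold Two at hi'; omega)
        (by unfold Two at hi'; omega)
      have h8 := hl.maps i (hsub i hi')
      unfold Two One at *; omega
    · intro i j h7 h8 h9
      have hi' : One s (s + k + 1) i := ⟨by omega, by omega⟩
      have hj : One s (s + k + 1) j := ⟨by omega, by omega⟩
      have hne : f i ≠ f j := fun e => by have := hl.inj hi' hj e; omega
      have h10 := key i hi' (by omega) (by omega) (by omega)
      have h11 := hl.maps i hi'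
      by_contra hcon
      exact hl.av i j (s + 1 + p) hi' hj hc h8 h9 (by unfold One at h11; omega) (by omega)
    · intro i j h7 h8 h9 h10 h11
      have hne : f i ≠ f j := fun e => by have := hl.inj (hsub i h7) (hsub j h8) e; omega
      by_contra hcon
      exact hl.av i j (s + k) (hsub i h7) (hsub j h8) hb h9 (by unfold Two at h8; omega)
        (by omega) (by omega)

theorem split_first {s e : ℕ} {f : ℕ → ℕ} (h : Loc (One s e) f) (hse : s < e) :
    Loc (One s (f s + 1)) f ∧ Loc (One (f s + 1) e) f := by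
  have hs : One s e s := ⟨le_rfl, hse⟩
  have hm := h.maps s hs
  -- a small value cannot come after a big one
  have hA : ∀ i j, One s e i → One s e j → i < j → f s < f i → f s < f j := by
    intro i j hi hj hij hlt
    have h0 : s < i := by
      rcases Nat.eq_or_lt_of_le hi.1 with e1 | e1
      · rw [← e1] at hlt; omega
      · exact e1
    have hne : f j ≠ f s := fun e => by have := h.inj hj hs e; omega
    by_contra hcon
    exact h.av s i j hs hi hj h0 hij (by omega) hlt
  have hR : ∀ i, One (f s + 1) e i → One (f s + 1) e (f i) := by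
    intro i hi
    have hi' : One s e i := by unfold One at *; omega
    have hfi := h.maps i hi'
    refine ⟨?_, hfi.2⟩
    by_contra hcon
    -- all of `[s, i]` has small values
    have hsm : ∀ j ∈ Finset.Icc s i, f j ∈ Finset.Icc s (f s) := by
      intro j hj
      rw [Finset.mem_Icc] at hj ⊢
      have hj' : One s e j := by unfold One at *; omega
      refine ⟨(h.maps j hj').1, ?_⟩
      by_contra hc2
      rcases Nat.eq_or_lt_of_le hj.2 with e1 | e1
      · rw [e1] at hc2; omega
      · have := hA j i hj' hi' e1 (by omega); omega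
    have hinj : Set.InjOn f (Finset.Icc s i) := by
      intro x hx y hy exy
      rw [Finset.mem_coe, Finset.mem_Icc] at hx hy
      exact h.inj (by unfold One at *; omega) (by unfold One at *; omega) exy
    have := Finset.card_le_card_of_injOn f hsm hinj
    simp only [Nat.card_Icc] at this
    unfold One at *; omega
  have lR : Loc (One (f s + 1) e) f := h.sub (fun i hi => by unfold One at *; omega) hR
  refine ⟨h.sub (fun i hi => by unfold One at *; omega) fun i hi => ?_, lR⟩
  have hi' : One s e i := by unfold One at *; omega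
  have hfi := h.maps i hi'
  refine ⟨hfi.1, ?_⟩
  by_contra hcon
  obtain ⟨j, hj, e1⟩ := lR.surj (v := f i) ⟨by omega, hfi.2⟩
  have := h.inj (i := j) (by unfold One at *; omega) hi' e1
  unfold One at *; omega

theorem cov_all (ρ : ℝ)
    (hsum : ∀ n : ℕ, ∑ k ∈ range n, (cb k : ℝ) * ρ ^ (n - 1 - k) ≤ ρ ^ n ∨ n = 0) (n : ℕ) :
    ∀ s, Cov (Loc (One s (s + n))) (One s (s + n)) (ρ ^ n) := by
  induction n using Nat.strong_induction_on with
  | _ n ih =>
    intro s
    rcases Nat.eq_zero_or_pos n with rfl | hn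
    · rw [pow_zero]
      exact cov_unique fun f g _ _ i hi => by unfold One at hi; omega
    have c : Cov (fun f => ∃ k ∈ range n, (Loc (One s (s + k + 1)) f ∧ f s = s + k) ∧
        Loc (One (s + k + 1) (s + k + 1 + (n - 1 - k))) f) (One s (s + n))
        (∑ k ∈ range n, (cb k : ℝ) * ρ ^ (n - 1 - k)) := by
      refine cov_exists _ fun k hk => ?_
      have hk' := Finset.mem_range.1 hk
      refine ((cov_block s k).prod (ih (n - 1 - k) (by omega) (s + k + 1))).mono (fun _ h => h)
        ?_ le_rfl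
      intro i hi; unfold One at *; omega
    refine c.mono (fun f hf => ?_) (fun _ h => h) ((hsum n).resolve_right (by omega))
    have hm := hf.maps s ⟨le_rfl, by omega⟩
    obtain ⟨k, hk⟩ : ∃ k, f s = s + k := ⟨f s - s, by unfold One at hm; omega⟩
    have := split_first hf (by omega)
    rw [hk] at this hm
    refine ⟨k, Finset.mem_range.2 (by unfold One at hm; omega), ⟨this.1, hk⟩, ?_⟩
    rw [show s + k + 1 + (n - 1 - k) = s + n by unfold One at hm; omega]
    exact this.2

end Pool.Agent.MP_fa04ef_co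

end

-- part MP_fa04ef_co.UpperSum
section

namespace Pool.Agent.MP_fa04ef_co

open Finset

theorem Gs_rec (r : ℕ) : Gs (r + 3) = 2 * (r + 3) + 2 * Gs r := by
  unfold Gs
  rw [Finset.sum_range_succ, Finset.sum_range_succ', Nat.sub_self, F_zero_left, F_zero_right]
  have h1 : ∀ p ∈ range (r + 2), F (p + 1) (r + 3 - (p + 1)) =
      2 + (if 1 ≤ p then F (p - 1) (r - (p - 1)) else 0) + (if p ≤ r then F p (r - p) else 0) := by
    intro p hp
    have hp' := Finset.mem_range.1 hp
    rw [F_eq _ _ (by omega) (by omega)]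
    congr 1
    · congr 1
      by_cases h : 1 ≤ p
      · rw [if_pos (by omega), if_pos h]; congr 1 <;> omega
      · rw [if_neg (by omega), if_neg h]
    · by_cases h : p ≤ r
      · rw [if_pos (by omega), if_pos h]; congr 1 <;> omega
      · rw [if_neg (by omega), if_neg h]
  rw [Finset.sum_congr rfl h1, Finset.sum_add_distrib, Finset.sum_add_distrib]
  have h2 : ∑ p ∈ range (r + 2), (if 1 ≤ p then F (p - 1) (r - (p - 1)) else 0)
      = ∑ p ∈ range (r + 1), F p (r - p) := by
    rw [Finset.sum_range_succ']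
    simp
  have h3 : ∑ p ∈ range (r + 2), (if p ≤ r then F p (r - p) else 0)
      = ∑ p ∈ range (r + 1), F p (r - p) := by
    rw [Finset.sum_range_succ, if_neg (by omega), add_zero]
    refine Finset.sum_congr rfl fun p hp => ?_
    rw [if_pos (by have := Finset.mem_range.1 hp; omega)]
  rw [h2, h3]
  simp only [Finset.sum_const, Finset.card_range, smul_eq_mul]
  omega

theorem Gs_zero : Gs 0 = 1 := by simp [Gs, F]
theorem Gs_one : Gs 1 = 2 := by simp [Gs, F, Finset.sum_range_succ]
theorem Gs_two : Gs 2 = 4 := by simp [Gs, F, Finset.sum_range_succ]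

theorem sum_Gs_le (x : ℝ) (h0 : 0 ≤ x) (h1 : x < 1) (h2 : 2 * x ^ 3 < 1) (n : ℕ) :
    ∑ r ∈ range n, (Gs r : ℝ) * x ^ r ≤ (1 + 2 * (x / (1 - x) ^ 2)) / (1 - 2 * x ^ 3) := by
  have hA : ∀ n, ∑ r ∈ range n, (r : ℝ) * x ^ r ≤ x / (1 - x) ^ 2 := fun n =>
    sum_le_hasSum _ (fun i _ => by positivity)
      (hasSum_coe_mul_geometric_of_norm_lt_one (by rwa [Real.norm_eq_abs, abs_of_nonneg h0]))
  have hrec : ∀ n, ∑ r ∈ range (n + 3), (Gs r : ℝ) * x ^ r =
      1 + 2 * ∑ r ∈ range (n + 3), (r : ℝ) * x ^ r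
        + 2 * x ^ 3 * ∑ r ∈ range n, (Gs r : ℝ) * x ^ r := by
    intro n
    induction n with
    | zero => simp [Finset.sum_range_succ, Gs_zero, Gs_one, Gs_two]; ring
    | succ n ih =>
      rw [show n + 1 + 3 = (n + 3) + 1 by ring, Finset.sum_range_succ, ih,
        Finset.sum_range_succ (fun r : ℕ => (r : ℝ) * x ^ r) (n + 3),
        Finset.sum_range_succ (fun r : ℕ => (Gs r : ℝ) * x ^ r) n, Gs_rec]
      push_cast
      ring
  have hmono : ∑ r ∈ range n, (Gs r : ℝ) * x ^ r ≤ ∑ r ∈ range (n + 3), (Gs r : ℝ) * x ^ r :=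
    Finset.sum_le_sum_of_subset_of_nonneg (Finset.range_mono (by omega))
      (fun i _ _ => by positivity)
  rw [le_div_iff₀ (by linarith)]
  have := hrec n
  have := hA (n + 3)
  nlinarith

theorem sum_cb_le (n : ℕ) :
    ∑ k ∈ range n, (cb k : ℝ) * (10000 / 24053 : ℝ) ^ (k + 1) ≤ 1 := by
  set x : ℝ := 10000 / 24053 with hx
  have h0 : 0 ≤ x := by rw [hx]; norm_num
  have h1 : x < 1 := by rw [hx]; norm_num
  have h2 : 2 * x ^ 3 < 1 := by rw [hx]; norm_num
  have hB : ∀ n, ∑ r ∈ range n, x ^ r ≤ (1 - x)⁻¹ := fun n =>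
    sum_le_hasSum _ (fun i _ => by positivity) (hasSum_geometric_of_lt_one h0 h1)
  have hmono : ∑ k ∈ range n, (cb k : ℝ) * x ^ (k + 1)
      ≤ ∑ k ∈ range (n + 2), (cb k : ℝ) * x ^ (k + 1) :=
    Finset.sum_le_sum_of_subset_of_nonneg (Finset.range_mono (by omega))
      (fun i _ _ => by positivity)
  have hrec : ∀ n, ∑ k ∈ range (n + 2), (cb k : ℝ) * x ^ (k + 1) =
      x * ∑ r ∈ range (n + 2), x ^ r + x ^ 3 * ∑ r ∈ range n, (Gs r : ℝ) * x ^ r := by
    intro n
    induction n with
    | zero => simp [Finset.sum_range_succ, cb]; ring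
    | succ n ih =>
      rw [show n + 1 + 2 = (n + 2) + 1 by ring, Finset.sum_range_succ, ih,
        Finset.sum_range_succ (fun r : ℕ => x ^ r) (n + 2),
        Finset.sum_range_succ (fun r : ℕ => (Gs r : ℝ) * x ^ r) n]
      simp only [cb, Nat.le_add_left, if_true, Nat.add_sub_cancel]
      push_cast
      ring
  have h3 := sum_Gs_le x h0 h1 h2 n
  have h4 := hB (n + 2)
  have h5 : x * (1 - x)⁻¹ + x ^ 3 * ((1 + 2 * (x / (1 - x) ^ 2)) / (1 - 2 * x ^ 3)) ≤ 1 := by
    rw [hx]; norm_num
  have h6 : x * ∑ r ∈ range (n + 2), x ^ r ≤ x * (1 - x)⁻¹ := by gcongr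
  have h7 : x ^ 3 * ∑ r ∈ range n, (Gs r : ℝ) * x ^ r
      ≤ x ^ 3 * ((1 + 2 * (x / (1 - x) ^ 2)) / (1 - 2 * x ^ 3)) := by gcongr
  rw [hrec] at hmono
  exact hmono.trans ((add_le_add h6 h7).trans h5)

theorem cov_231 (n : ℕ) : Cov (Loc (One 0 n)) (One 0 n) ((24053 / 10000 : ℝ) ^ n) := by
  have := cov_all (24053 / 10000 : ℝ) (fun n => ?_) n 0
  · simpa using this
  left
  have h := sum_cb_le n
  calc ∑ k ∈ range n, (cb k : ℝ) * (24053 / 10000 : ℝ) ^ (n - 1 - k)
      = (24053 / 10000 : ℝ) ^ n * ∑ k ∈ range n, (cb k : ℝ) * (10000 / 24053 : ℝ) ^ (k + 1) := by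
        rw [Finset.mul_sum]
        refine Finset.sum_congr rfl fun k hk => ?_
        have hk' := Finset.mem_range.1 hk
        have e : (24053 / 10000 : ℝ) ^ n
            = (24053 / 10000 : ℝ) ^ (n - 1 - k) * (24053 / 10000 : ℝ) ^ (k + 1) := by
          rw [← pow_add]; congr 1; omega
        have e2 : (24053 / 10000 : ℝ) ^ (k + 1) * (10000 / 24053 : ℝ) ^ (k + 1) = 1 := by
          rw [← mul_pow]; norm_num
        rw [e]
        linear_combination (-(cb k : ℝ) * (24053 / 10000 : ℝ) ^ (n - 1 - k)) * e2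
    _ ≤ (24053 / 10000 : ℝ) ^ n * 1 := by gcongr
    _ = _ := mul_one _

end Pool.Agent.MP_fa04ef_co

end

-- part MP_fa04ef_co.Check
section

namespace Pool.Agent.MP_fa04ef_co

/-- base-32 digit -/
def dig (N i : ℕ) : ℕ := Nat.mod (Nat.shiftRight N (Nat.mul 5 i)) 32

/-- the point `i` has period at most three -/
noncomputable def cycOk (N i v : ℕ) : Bool :=
  @Bool.rec (fun _ => Bool) (Nat.beq (dig N (dig N v)) i) true (Nat.beq (dig N v) i)

/-- the cut at `i` is crossed -/
noncomputable def cutOk (i m : ℕ) : Bool :=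
  @Bool.rec (fun _ => Bool) true (Nat.beq i 0) (Nat.ble i m)

/-- right-to-left scan -/
noncomputable def scan (N : ℕ) (k : ℕ) : ℕ → ℕ → Bool :=
  Nat.rec (motive := fun _ => ℕ → ℕ → Bool) (fun _ _ => true)
    (fun i ih mn hi =>
      @Bool.rec (fun _ => Bool) false
        (@Bool.rec (fun _ => Bool)
          (@Bool.rec (fun _ => Bool) false (ih (dig N i) hi) (cutOk i (dig N i)))
          (@Bool.rec (fun _ => Bool)
            (@Bool.rec (fun _ => Bool) false (ih mn (dig N i)) (cutOk i mn))
            false (Nat.ble hi (dig N i)))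
          (Nat.ble mn (dig N i)))
        (cycOk N i (dig N i))) k

noncomputable def chk (k hi : ℕ) (L : List ℕ) : ℕ → Bool :=
  List.rec (motive := fun _ => ℕ → Bool) (fun lo => Nat.ble lo hi)
    (fun x _ ih lo => @Bool.rec (fun _ => Bool) false
      (@Bool.rec (fun _ => Bool) false (ih (Nat.succ x)) (scan x k k k)) (Nat.ble lo x)) L

end Pool.Agent.MP_fa04ef_co

end

-- part MP_fa04ef_co.Lower
section

namespace Pool.Agent.MP_fa04ef_co

open Finset

/-- no 321 among the first `n` positions -/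
def Av321 (f : ℕ → ℕ) (n : ℕ) : Prop :=
  ∀ i j k, i < j → j < k → k < n → f k < f j → f j < f i → False

/-- a sum-indecomposable block of length `k` coded by `N` -/
structure GoodB (k N : ℕ) : Prop where
  rng : ∀ i < k, dig N i < k
  cyc : ∀ i < k, dig N (dig N i) = i ∨ dig N (dig N (dig N i)) = i
  av : Av321 (dig N) k
  cut : ∀ c, 0 < c → c < k → ∃ i, c ≤ i ∧ i < k ∧ dig N i < c

theorem cycOk_sound {N i v : ℕ} (h : cycOk N i v = true) :
    dig N v = i ∨ dig N (dig N v) = i := by
  unfold cycOk at h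
  cases h1 : Nat.beq (dig N v) i with
  | true => exact Or.inl (Nat.eq_of_beq_eq_true h1)
  | false => rw [h1] at h; exact Or.inr (Nat.eq_of_beq_eq_true h)

theorem cutOk_sound {i m : ℕ} (h : cutOk i m = true) : i = 0 ∨ m < i := by
  unfold cutOk at h
  cases h1 : Nat.ble i m with
  | true => rw [h1] at h; exact Or.inl (Nat.eq_of_beq_eq_true h)
  | false =>
    right
    by_contra h2
    rw [Nat.ble_eq_true_of_le (by omega : i ≤ m)] at h1
    exact Bool.noConfusion h1

theorem scan_succ (N i mn hi : ℕ) (h : scan N (i + 1) mn hi = true) :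
    (dig N (dig N i) = i ∨ dig N (dig N (dig N i)) = i) ∧
    ((dig N i < mn ∧ (i = 0 ∨ dig N i < i) ∧ scan N i (dig N i) hi = true) ∨
     (mn ≤ dig N i ∧ dig N i < hi ∧ (i = 0 ∨ mn < i) ∧ scan N i mn (dig N i) = true)) := by
  change @Bool.rec (fun _ => Bool) false
        (@Bool.rec (fun _ => Bool)
          (@Bool.rec (fun _ => Bool) false (scan N i (dig N i) hi) (cutOk i (dig N i)))
          (@Bool.rec (fun _ => Bool)
            (@Bool.rec (fun _ => Bool) false (scan N i mn (dig N i)) (cutOk i mn))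
            false (Nat.ble hi (dig N i)))
          (Nat.ble mn (dig N i)))
        (cycOk N i (dig N i)) = true at h
  cases h1 : cycOk N i (dig N i) with
  | false => rw [h1] at h; exact Bool.noConfusion h
  | true =>
    rw [h1] at h
    refine ⟨cycOk_sound h1, ?_⟩
    cases h2 : Nat.ble mn (dig N i) with
    | false =>
      rw [h2] at h
      left
      have h3 : dig N i < mn := by
        by_contra h4
        rw [Nat.ble_eq_true_of_le (by omega : mn ≤ dig N i)] at h2
        exact Bool.noConfusion h2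
      cases h4 : cutOk i (dig N i) with
      | false => rw [h4] at h; exact Bool.noConfusion h
      | true => rw [h4] at h; exact ⟨h3, cutOk_sound h4, h⟩
    | true =>
      rw [h2] at h
      right
      cases h3 : Nat.ble hi (dig N i) with
      | true => rw [h3] at h; exact Bool.noConfusion h
      | false =>
        rw [h3] at h
        have h5 : dig N i < hi := by
          by_contra h4
          rw [Nat.ble_eq_true_of_le (by omega : hi ≤ dig N i)] at h3
          exact Bool.noConfusion h3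
        cases h4 : cutOk i mn with
        | false => rw [h4] at h; exact Bool.noConfusion h
        | true => rw [h4] at h; exact ⟨Nat.le_of_ble_eq_true h2, h5, cutOk_sound h4, h⟩

theorem scan_inv (N k : ℕ) : ∀ i mn hi, i ≤ k → scan N i mn hi = true → mn ≤ k → hi ≤ k →
    (∀ j, i ≤ j → j < k → mn ≤ dig N j) →
    (mn = k ∨ ∃ j, i ≤ j ∧ j < k ∧ dig N j = mn) →
    (∀ j j', i ≤ j → j < j' → j' < k → dig N j' < dig N j → hi ≤ dig N j) →
    (∀ j, i ≤ j → j < k → dig N j < k ∧ (dig N (dig N j) = j ∨ dig N (dig N (dig N j)) = j)) →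
    (∀ a b c, i ≤ a → a < b → b < c → c < k → dig N c < dig N b → dig N b < dig N a → False) →
    (∀ c, 0 < c → i ≤ c → c < k → ∃ j, c ≤ j ∧ j < k ∧ dig N j < c) → GoodB k N := by
  intro i
  induction i with
  | zero =>
    intro mn hi _ _ _ _ _ _ _ h4 h5 h6
    exact ⟨fun j hj => (h4 j (Nat.zero_le _) hj).1, fun j hj => (h4 j (Nat.zero_le _) hj).2,
      fun a b c => h5 a b c (Nat.zero_le _), fun c hc => h6 c hc (Nat.zero_le _)⟩
  | succ i ih =>
    intro mn hi hik hs hmn hhi h1 h2 h3 h4 h5 h6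
    obtain ⟨hc, hcase⟩ := scan_succ N i mn hi hs
    rcases hcase with ⟨g1, g2, g3⟩ | ⟨g1, g2, g3, g4⟩
    · refine ih (dig N i) hi (by omega) g3 (by omega) hhi ?_ (Or.inr ⟨i, le_rfl, by omega, rfl⟩)
        ?_ ?_ ?_ ?_
      · intro j j1 j2
        rcases Nat.eq_or_lt_of_le j1 with e | e
        · rw [e]
        · have := h1 j e j2; omega
      · intro j j' j1 j2 j3 j4
        rcases Nat.eq_or_lt_of_le j1 with e | e
        · subst e
          have := h1 j' j2 j3; omega
        · exact h3 j j' e j2 j3 j4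
      · intro j j1 j2
        rcases Nat.eq_or_lt_of_le j1 with e | e
        · subst e; exact ⟨by omega, hc⟩
        · exact h4 j e j2
      · intro a b c a1 a2 a3 a4 a5 a6
        rcases Nat.eq_or_lt_of_le a1 with e | e
        · subst e
          have := h1 b a2 (by omega); omega
        · exact h5 a b c e a2 a3 a4 a5 a6
      · intro c c1 c2 c3
        rcases Nat.eq_or_lt_of_le c2 with e | e
        · subst e
          exact ⟨i, le_rfl, c3, by omega⟩
        · exact h6 c c1 e c3
    · refine ih mn (dig N i) (by omega) g4 hmn (by omega) ?_ ?_ ?_ ?_ ?_ ?_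
      · intro j j1 j2
        rcases Nat.eq_or_lt_of_le j1 with e | e
        · rw [← e]; exact g1
        · exact h1 j e j2
      · rcases h2 with h2 | ⟨j, j1, j2, j3⟩
        · exact Or.inl h2
        · exact Or.inr ⟨j, by omega, j2, j3⟩
      · intro j j' j1 j2 j3 j4
        rcases Nat.eq_or_lt_of_le j1 with e | e
        · rw [e]
        · have := h3 j j' e j2 j3 j4; omega
      · intro j j1 j2
        rcases Nat.eq_or_lt_of_le j1 with e | e
        · subst e; exact ⟨by omega, hc⟩
        · exact h4 j e j2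
      · intro a b c a1 a2 a3 a4 a5 a6
        rcases Nat.eq_or_lt_of_le a1 with e | e
        · subst e
          have := h3 b c a2 a3 a4 a5; omega
        · exact h5 a b c e a2 a3 a4 a5 a6
      · intro c c1 c2 c3
        rcases Nat.eq_or_lt_of_le c2 with e | e
        · subst e
          rcases h2 with h2 | ⟨j, j1, j2, j3⟩
          · omega
          · exact ⟨j, by omega, j2, by omega⟩
        · exact h6 c c1 e c3

theorem scan_sound {N k : ℕ} (h : scan N k k k = true) : GoodB k N :=
  scan_inv N k k k k le_rfl h le_rfl le_rfl (fun j h1 h2 => by omega) (Or.inl rfl)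
    (fun j j' h1 h2 h3 => by omega) (fun j h1 h2 => by omega) (fun a b c h1 h2 h3 h4 => by omega)
    (fun c _ h1 h2 => by omega)

/-- at least `m` good blocks with codes in `[lo, hi)` -/
def Blocks (k lo hi m : ℕ) : Prop :=
  ∃ S : Finset ℕ, m ≤ S.card ∧ ∀ N ∈ S, lo ≤ N ∧ N < hi ∧ GoodB k N

theorem chk_sound (k hi : ℕ) (L : List ℕ) : ∀ lo, chk k hi L lo = true →
    lo ≤ hi ∧ Blocks k lo hi L.length := by
  induction L with
  | nil =>
    intro lo h
    exact ⟨Nat.le_of_ble_eq_true h, ∅, by simp, by simp⟩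
  | cons x L ih =>
    intro lo h
    change @Bool.rec (fun _ => Bool) false
      (@Bool.rec (fun _ => Bool) false (chk k hi L (Nat.succ x)) (scan x k k k))
      (Nat.ble lo x) = true at h
    cases h1 : Nat.ble lo x with
    | false => rw [h1] at h; exact Bool.noConfusion h
    | true =>
      rw [h1] at h
      cases h2 : scan x k k k with
      | false => rw [h2] at h; exact Bool.noConfusion h
      | true =>
        rw [h2] at h
        obtain ⟨g1, S, g2, g3⟩ := ih _ h
        have h3 := Nat.le_of_ble_eq_true h1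
        have hx : x ∉ S := fun hx => by have := (g3 x hx).1; omega
        refine ⟨by omega, insert x S, ?_, fun N hN => ?_⟩
        · rw [Finset.card_insert_of_notMem hx, List.length_cons]; omega
        · rcases Finset.mem_insert.1 hN with rfl | hN
          · exact ⟨h3, by omega, scan_sound h2⟩
          · have := g3 N hN
            exact ⟨by omega, this.2.1, this.2.2⟩

theorem Blocks.append {k a b c m m' : ℕ} (h : Blocks k a b m) (h' : Blocks k b c m')
    (hab : a ≤ b) (hbc : b ≤ c) : Blocks k a c (m + m') := by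
  obtain ⟨S, s1, s2⟩ := h
  obtain ⟨T, t1, t2⟩ := h'
  refine ⟨S ∪ T, ?_, fun N hN => ?_⟩
  · rw [Finset.card_union_of_disjoint]
    · omega
    · rw [Finset.disjoint_left]
      intro N h1 h2
      have := s2 N h1
      have := t2 N h2
      omega
  · rcases Finset.mem_union.1 hN with h1 | h1
    · have := s2 N h1; exact ⟨this.1, by omega, this.2.2⟩
    · have := t2 N h1; exact ⟨by omega, this.2.1, this.2.2⟩

theorem blocks_of_chk {k lo hi m : ℕ} {L : List ℕ} (h : chk k hi L lo = true)
    (hl : L.length = m) : lo ≤ hi ∧ Blocks k lo hi m := hl ▸ chk_sound k hi L lo h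

theorem blocks_join {k a b c m m' : ℕ} (h : a ≤ b ∧ Blocks k a b m)
    (h' : b ≤ c ∧ Blocks k b c m') : a ≤ c ∧ Blocks k a c (m + m') :=
  ⟨h.1.trans h'.1, h.2.append h'.2 h.1 h'.1⟩

theorem dig_eq (N i : ℕ) : dig N i = N / 32 ^ i % 32 := by
  unfold dig
  change (N >>> (5 * i)) % 32 = _
  rw [Nat.shiftRight_eq_div_pow, pow_mul]
  norm_num

theorem eq_of_dig (k : ℕ) : ∀ N N' : ℕ, N < 32 ^ k → N' < 32 ^ k →
    (∀ i < k, dig N i = dig N' i) → N = N' := by
  induction k with
  | zero => intro N N' h h' _; omega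
  | succ k ih =>
    intro N N' h h' he
    have h0 := he 0 (by omega)
    simp only [dig_eq, pow_zero, Nat.div_one] at h0
    have h1 : N / 32 = N' / 32 := by
      refine ih _ _ (by rw [pow_succ] at h; omega) (by rw [pow_succ] at h'; omega) fun i hi => ?_
      have := he (i + 1) (by omega)
      rw [dig_eq, dig_eq] at this
      rw [dig_eq, dig_eq, Nat.div_div_eq_div_mul, Nat.div_div_eq_div_mul, ← pow_succ']
      exact this
    omega

/-- `f` is a 321-avoiding permutation of the first `n` positions with short cycles -/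
structure G321 (n : ℕ) (f : ℕ → ℕ) : Prop where
  out : ∀ i, n ≤ i → f i = i
  rng : ∀ i < n, f i < n
  cyc : ∀ i < n, f (f i) = i ∨ f (f (f i)) = i
  av : Av321 f n

def Pack (n : ℕ) (x : ℝ) : Prop := ∃ L : Finset (ℕ → ℕ), x ≤ L.card ∧ ∀ f ∈ L, G321 n f

/-- direct sum -/
def glue (m k : ℕ) (f : ℕ → ℕ) (N : ℕ) : ℕ → ℕ :=
  fun i => if i < m then f i else if i < m + k then m + dig N (i - m) else i

theorem glue_lo {m k : ℕ} {f : ℕ → ℕ} {N i : ℕ} (h : i < m) : glue m k f N i = f i := by
  simp [glue, h]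

theorem glue_mid {m k : ℕ} {f : ℕ → ℕ} {N j : ℕ} (h : j < k) :
    glue m k f N (m + j) = m + dig N j := by
  simp [glue, h]

theorem glue_good {m k : ℕ} {f : ℕ → ℕ} {N : ℕ} (hf : G321 m f) (hN : GoodB k N) :
    G321 (m + k) (glue m k f N) := by
  refine ⟨fun i hi => ?_, fun i hi => ?_, fun i hi => ?_, fun a b c h1 h2 h3 h4 h5 => ?_⟩
  · unfold glue; rw [if_neg (by omega), if_neg (by omega)]
  · by_cases h : i < m
    · rw [glue_lo h]; have := hf.rng i h; omega
    · obtain ⟨j, rfl⟩ : ∃ j, i = m + j := ⟨i - m, by omega⟩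
      rw [glue_mid (by omega)]; have := hN.rng j (by omega); omega
  · by_cases h : i < m
    · have h1 := hf.rng i h
      have h2 := hf.rng _ h1
      rw [glue_lo h, glue_lo h1, glue_lo h2]
      exact hf.cyc i h
    · obtain ⟨j, rfl⟩ : ∃ j, i = m + j := ⟨i - m, by omega⟩
      have h0 : j < k := by omega
      have h1 := hN.rng j h0
      have h2 := hN.rng _ h1
      rw [glue_mid h0, glue_mid h1, glue_mid h2]
      have := hN.cyc j h0
      omega
  · by_cases ha : a < m
    · by_cases hc : c < m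
      · rw [glue_lo hc, glue_lo (show b < m by omega)] at h4
        rw [glue_lo ha, glue_lo (show b < m by omega)] at h5
        exact hf.av a b c h1 h2 hc h4 h5
      · obtain ⟨j, rfl⟩ : ∃ j, c = m + j := ⟨c - m, by omega⟩
        rw [glue_mid (by omega)] at h4
        rw [glue_lo ha] at h5
        have := hf.rng a ha
        omega
    · obtain ⟨a', rfl⟩ : ∃ j, a = m + j := ⟨a - m, by omega⟩
      obtain ⟨b', rfl⟩ : ∃ j, b = m + j := ⟨b - m, by omega⟩
      obtain ⟨c', rfl⟩ : ∃ j, c = m + j := ⟨c - m, by omega⟩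
      rw [glue_mid (by omega), glue_mid (by omega)] at h4 h5
      exact hN.av a' b' c' (by omega) (by omega) (by omega) (by omega) (by omega)

theorem pack_step (b : ℕ → ℕ) (K n : ℕ) (x : ℕ → ℝ)
    (hb : ∀ k, 1 ≤ k → k ≤ K → Blocks k 0 (32 ^ k) (b k))
    (hx : ∀ m < n, Pack m (x m)) :
    Pack n (∑ k ∈ (Finset.Icc 1 K).filter (· ≤ n), (b k : ℝ) * x (n - k)) := by
  classical
  have hb' : ∀ k, ∃ S : Finset ℕ, 1 ≤ k → k ≤ K →
      b k ≤ S.card ∧ ∀ N ∈ S, N < 32 ^ k ∧ GoodB k N := by
    intro k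
    by_cases h : 1 ≤ k ∧ k ≤ K
    · obtain ⟨S, s1, s2⟩ := hb k h.1 h.2
      exact ⟨S, fun _ _ => ⟨s1, fun N hN => (s2 N hN).2⟩⟩
    · exact ⟨∅, fun h1 h2 => (h ⟨h1, h2⟩).elim⟩
  choose S hS using hb'
  have hx' : ∀ m, ∃ L : Finset (ℕ → ℕ), m < n → x m ≤ L.card ∧ ∀ f ∈ L, G321 m f := by
    intro m
    by_cases h : m < n
    · obtain ⟨L, l1⟩ := hx m h
      exact ⟨L, fun _ => l1⟩
    · exact ⟨∅, fun h1 => (h h1).elim⟩
  choose L hL using hx'
  set T := (Finset.Icc 1 K).filter (· ≤ n) with hT
  have memT : ∀ k ∈ T, 1 ≤ k ∧ k ≤ K ∧ k ≤ n := by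
    intro k hk
    rw [hT, Finset.mem_filter, Finset.mem_Icc] at hk
    exact ⟨hk.1.1, hk.1.2, hk.2⟩
  have hdis : ∀ k ∈ T, ∀ k' ∈ T, k < k' →
      Disjoint (Finset.image₂ (glue (n - k) k) (L (n - k)) (S k))
        (Finset.image₂ (glue (n - k') k') (L (n - k')) (S k')) := by
    intro k hk k' hk' hlt
    obtain ⟨k1, k2, k3⟩ := memT k hk
    obtain ⟨k1', k2', k3'⟩ := memT k' hk'
    rw [Finset.disjoint_left]
    intro F h1 h2
    obtain ⟨f, _, N, _, rfl⟩ := Finset.mem_image₂.1 h1
    obtain ⟨f', _, N', hN', e⟩ := Finset.mem_image₂.1 h2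
    obtain ⟨i, i1, i2, i3⟩ := (((hS k' k1' k2').2 N' hN').2).cut (k' - k) (by omega) (by omega)
    have e1 := congrFun e (n - k' + i)
    rw [glue_mid i2, show n - k' + i = n - k + (i - (k' - k)) by omega, glue_mid (by omega)] at e1
    omega
  refine ⟨T.biUnion fun k => Finset.image₂ (glue (n - k) k) (L (n - k)) (S k), ?_, ?_⟩
  · rw [Finset.card_biUnion]
    · push_cast
      refine Finset.sum_le_sum fun k hk => ?_
      obtain ⟨k1, k2, k3⟩ := memT k hk
      have hl := hL (n - k) (by omega)
      have hs := hS k k1 k2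
      rw [Finset.card_image₂_iff.2]
      · push_cast
        rw [mul_comm]
        have h3 : (b k : ℝ) ≤ (S k).card := by exact_mod_cast hs.1
        exact le_trans (mul_le_mul_of_nonneg_right hl.1 (Nat.cast_nonneg _))
          (mul_le_mul_of_nonneg_left h3 (Nat.cast_nonneg _))
      · rintro ⟨f, N⟩ h1 ⟨f', N'⟩ h2 e
        simp only [Set.mem_prod, Finset.mem_coe] at h1 h2
        simp only at e
        have e1 : f = f' := by
          funext i
          by_cases hi : i < n - k
          · have := congrFun e i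
            rwa [glue_lo hi, glue_lo hi] at this
          · rw [(hl.2 f h1.1).out i (by omega), (hl.2 f' h2.1).out i (by omega)]
        have e2 : N = N' := by
          refine eq_of_dig k N N' (hs.2 N h1.2).1 (hs.2 N' h2.2).1 fun i hi => ?_
          have := congrFun e (n - k + i)
          rw [glue_mid hi, glue_mid hi] at this
          omega
        rw [e1, e2]
    · intro k hk k' hk' hne
      rcases lt_or_gt_of_ne hne with h | h
      · exact hdis k hk k' hk' h
      · exact (hdis k' hk' k hk h).symm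
  · intro F hF
    obtain ⟨k, hk, hF⟩ := Finset.mem_biUnion.1 hF
    obtain ⟨k1, k2, k3⟩ := memT k hk
    obtain ⟨f, hf, N, hN, rfl⟩ := Finset.mem_image₂.1 hF
    have := glue_good ((hL (n - k) (by omega)).2 f hf) ((hS k k1 k2).2 N hN).2
    rwa [show n - k + k = n by omega] at this

theorem pack_zero : Pack 0 1 :=
  ⟨{id}, by simp, fun f hf => by
    rw [Finset.mem_singleton.1 hf]
    exact ⟨fun _ _ => rfl, fun i hi => by omega, fun i hi => by omega,
      fun a b c _ _ h => by omega⟩⟩

theorem Pack.mono {n : ℕ} {x y : ℝ} (h : Pack n x) (hy : y ≤ x) : Pack n y := by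
  obtain ⟨L, l1, l2⟩ := h
  exact ⟨L, hy.trans l1, l2⟩

end Pool.Agent.MP_fa04ef_co

end
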