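import Pool.Agent.MP_fa04ef_co.Defs
import Pool.Agent.MP_fa04ef_co.Mg.Lower
import Pool.Agent.MP_fa04ef_co.Mg.Data1
import Pool.Agent.MP_fa04ef_co.Mg.Data2
import Pool.Agent.MP_fa04ef_co.Mg.Data3
import Pool.Agent.MP_fa04ef_co.Mg.Data4

namespace Pool.Agent.MP_fa04ef_co

open Finset

def bb (k : ℕ) : ℕ :=
  [0, 1, 1, 2, 1, 4, 8, 10, 29, 56, 98, 240, 482, 938, 2170, 4420, 9131, 20252].getD k 0

def tb (k : ℕ) : ℕ :=
  [1, 1, 2, 5, 10, 24, 58, 133, 324, 782, 1868, 4550, 11030, 26684, 65010, 158005, 384066].getD k 0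

theorem B17 : Blocks 17 0 (32 ^ 17) 20252 := (blocks_join B17a B17b).2

theorem blocks_bb : ∀ k, 1 ≤ k → k ≤ 17 → Blocks k 0 (32 ^ k) (bb k) := by
  intro k h1 h2
  interval_cases k
  exacts [B1, B2, B3, B4, B5, B6, B7, B8, B9, B10, B11, B12, B13, B14, B15, B16, B17]

theorem tb_rec : ∀ n ≤ 16, 1 ≤ n →
    tb n ≤ ∑ k ∈ (Finset.Icc 1 17).filter (· ≤ n), bb k * tb (n - k) := by
  decide +kernel

theorem pack_tb (n : ℕ) : n ≤ 16 → Pack n (tb n) := by
  induction n using Nat.strong_induction_on with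
  | _ n ih =>
    intro hn
    rcases Nat.eq_zero_or_pos n with rfl | h0
    · simpa [tb] using pack_zero
    refine (pack_step bb 17 n (fun m => (tb m : ℝ)) blocks_bb
      fun m hm => ih m hm (by omega)).mono ?_
    exact_mod_cast tb_rec n hn h0

theorem pack_all (n : ℕ) : Pack n (28 / 100 * (24105 / 10000 : ℝ) ^ n) := by
  induction n using Nat.strong_induction_on with
  | _ n ih =>
    by_cases hn : n ≤ 16
    · refine (pack_tb n hn).mono ?_
      interval_cases n <;> simp only [tb, List.getD_cons_succ, List.getD_cons_zero] <;> norm_num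
    refine (pack_step bb 17 n (fun m => 28 / 100 * (24105 / 10000 : ℝ) ^ m) blocks_bb ih).mono ?_
    obtain ⟨m, rfl⟩ : ∃ m, n = m + 17 := ⟨n - 17, by omega⟩
    rw [Finset.filter_true_of_mem (fun k hk => by have := (Finset.mem_Icc.1 hk).2; omega)]
    have e : ∀ k ∈ Finset.Icc 1 17, (bb k : ℝ) * (28 / 100 * (24105 / 10000 : ℝ) ^ (m + 17 - k))
        = 28 / 100 * (24105 / 10000 : ℝ) ^ m * ((bb k : ℝ) * (24105 / 10000 : ℝ) ^ (17 - k)) := by
      intro k hk
      have := (Finset.mem_Icc.1 hk).2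
      rw [show m + 17 - k = m + (17 - k) by omega, pow_add]
      ring
    rw [Finset.sum_congr rfl e, ← Finset.mul_sum, pow_add, ← mul_assoc]
    gcongr
    rw [show Finset.Icc 1 17 = {1, 2, 3, 4, 5, 6, 7, 8, 9, 10, 11, 12, 13, 14, 15, 16, 17} by decide]
    simp only [bb]
    norm_num [Finset.sum_insert]

theorem numeric (n : ℕ) (hn : 600 ≤ n) :
    (24053 / 10000 : ℝ) ^ n < 28 / 100 * (24105 / 10000 : ℝ) ^ n := by
  have h1 : (153 / 100 : ℝ) ≤ (24105 / 24053 : ℝ) ^ 200 := by norm_num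
  have h2 : (153 / 100 : ℝ) ^ 3 ≤ (24105 / 24053 : ℝ) ^ 600 := by
    rw [show 600 = 200 * 3 by norm_num, pow_mul]
    gcongr
  have h3 : (24105 / 24053 : ℝ) ^ 600 ≤ (24105 / 24053 : ℝ) ^ n :=
    pow_le_pow_right₀ (by norm_num) hn
  have h4 : (24105 / 10000 : ℝ) ^ n = (24053 / 10000 : ℝ) ^ n * (24105 / 24053 : ℝ) ^ n := by
    rw [← mul_pow]; norm_num
  have h5 : (0 : ℝ) < (24053 / 10000 : ℝ) ^ n := by positivity
  have h6 : (1 : ℝ) < 28 / 100 * (24105 / 24053 : ℝ) ^ n := by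
    have h7 : (1 : ℝ) < 28 / 100 * (153 / 100 : ℝ) ^ 3 := by norm_num
    exact h7.trans_le (mul_le_mul_of_nonneg_left (h2.trans h3) (by norm_num))
  rw [h4]
  nlinarith

theorem period_mem_iff {α : Type*} (f : α → α) (x : α) :
    Function.minimalPeriod f x ∈ ({1, 2, 3} : Set ℕ) ↔ f (f x) = x ∨ f (f (f x)) = x := by
  constructor
  · intro h
    have hp := Function.isPeriodicPt_minimalPeriod f x
    rcases h with h | h | h
    · rw [h] at hp
      have : f x = x := hp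
      left; rw [this, this]
    · rw [h] at hp; exact Or.inl hp
    · rw [h] at hp; exact Or.inr hp
  · rintro (h | h)
    · have hp : Function.IsPeriodicPt f 2 x := h
      have := (Nat.dvd_prime Nat.prime_two).1 hp.minimalPeriod_dvd
      simp only [Set.mem_insert_iff, Set.mem_singleton_iff]; omega
    · have hp : Function.IsPeriodicPt f 3 x := h
      have := (Nat.dvd_prime Nat.prime_three).1 hp.minimalPeriod_dvd
      simp only [Set.mem_insert_iff, Set.mem_singleton_iff]; omega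

/-- extension of a permutation to the natural numbers -/
def ext {n : ℕ} (π : Equiv.Perm (Fin n)) (i : ℕ) : ℕ := if h : i < n then (π ⟨i, h⟩ : ℕ) else i

theorem ext_val {n : ℕ} (π : Equiv.Perm (Fin n)) (i : Fin n) : ext π i = π i := by
  simp [ext]

theorem contains_of {n : ℕ} (π : Equiv.Perm (Fin n)) (σ : Fin 3 → ℕ) (i j k : Fin n) (hij : i < j)
    (hjk : j < k) (h : ∀ s t : Fin 3, π (![i, j, k] s) < π (![i, j, k] t) ↔ σ s < σ t) :
    Contains π σ := by
  refine ⟨![i, j, k], ?_, h⟩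
  rw [Fin.strictMono_iff_lt_succ]
  intro t
  fin_cases t
  · exact hij
  · exact hjk

theorem upper (n : ℕ) : (a {1, 2, 3} ![2, 3, 1] n : ℝ) ≤ (24053 / 10000 : ℝ) ^ n := by
  obtain ⟨L, l1, l2⟩ := cov_231 n
  refine le_trans ?_ l1
  have key : ∀ π ∈ {π : Equiv.Perm (Fin n) | ¬ Contains π ![2, 3, 1] ∧
      ∀ i, Function.minimalPeriod π i ∈ ({1, 2, 3} : Set ℕ)}, Loc (One 0 n) (ext π) := by
    rintro π ⟨h1, h2⟩
    refine ⟨fun i hi => ?_, fun i hi => ?_, fun i j k hi hj hk hij hjk h3 h4 => h1 ?_⟩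
    · have := ext_val π ⟨i, hi.2⟩
      simp only at this
      rw [this]; exact ⟨Nat.zero_le _, (π _).2⟩
    · have h3 := (period_mem_iff π ⟨i, hi.2⟩).1 (h2 _)
      have e : ext π i = π ⟨i, hi.2⟩ := ext_val π ⟨i, hi.2⟩
      rw [e, ext_val, ext_val]
      rcases h3 with h3 | h3
      · left; rw [h3]
      · right; rw [h3]
    · have ei : ext π i = π ⟨i, hi.2⟩ := ext_val π ⟨i, hi.2⟩
      have ej : ext π j = π ⟨j, hj.2⟩ := ext_val π ⟨j, hj.2⟩
      have ek : ext π k = π ⟨k, hk.2⟩ := ext_val π ⟨k, hk.2⟩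
      rw [ei, ek] at h3
      rw [ei, ej] at h4
      refine contains_of π _ ⟨i, hi.2⟩ ⟨j, hj.2⟩ ⟨k, hk.2⟩ hij hjk fun s t => ?_
      have h3' : π ⟨k, hk.2⟩ < π ⟨i, hi.2⟩ := h3
      have h4' : π ⟨i, hi.2⟩ < π ⟨j, hj.2⟩ := h4
      have h5' := h3'.trans h4'
      fin_cases s <;> fin_cases t <;> simp [h3', h4', h5', h3'.le, h4'.le, h5'.le]
  choose! g hg1 hg2 using fun π hπ => l2 (ext π) (key π hπ)
  have := Set.ncard_le_ncard_of_injOn g (t := (L : Set (ℕ → ℕ))) hg1 (fun π hπ π' hπ' e => by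
    ext i
    rw [← ext_val, ← ext_val, hg2 π hπ i ⟨Nat.zero_le _, i.2⟩, hg2 π' hπ' i ⟨Nat.zero_le _, i.2⟩, e])
    (Finset.finite_toSet L)
  rw [Set.ncard_coe_finset] at this
  exact_mod_cast this

theorem exists_perm {n : ℕ} {f : ℕ → ℕ} (hf : G321 n f) :
    ∃ π : Equiv.Perm (Fin n), (¬ Contains π ![3, 2, 1] ∧
      ∀ i, Function.minimalPeriod π i ∈ ({1, 2, 3} : Set ℕ)) ∧ ∀ i, (π i : ℕ) = f i := by
  let φ : Fin n → Fin n := fun i => ⟨f i, hf.rng i i.2⟩
  have hinj : Function.Injective φ := fun i j e =>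
    Fin.ext (inj_of_cyc (hf.cyc i i.2) (hf.cyc j j.2) (congrArg Fin.val e))
  refine ⟨Equiv.ofBijective φ (Finite.injective_iff_bijective.1 hinj), ⟨?_, fun i => ?_⟩,
    fun i => rfl⟩
  · rintro ⟨p, hp, h⟩
    have h1 := (h 1 0).2 (by simp)
    have h2 := (h 2 1).2 (by simp)
    exact hf.av (p 0) (p 1) (p 2) (hp (by decide)) (hp (by decide)) (p 2).2 h2 h1
  · rw [period_mem_iff]
    rcases hf.cyc i i.2 with h | h
    · left; exact Fin.ext h
    · right; exact Fin.ext h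

theorem lower (n : ℕ) : 28 / 100 * (24105 / 10000 : ℝ) ^ n ≤ (a {1, 2, 3} ![3, 2, 1] n : ℝ) := by
  obtain ⟨L, l1, l2⟩ := pack_all n
  refine l1.trans ?_
  have : Nonempty (Equiv.Perm (Fin n)) := ⟨1⟩
  choose! g hg1 hg2 using fun f (hf : f ∈ (L : Set (ℕ → ℕ))) => exists_perm (l2 f hf)
  have := Set.ncard_le_ncard_of_injOn g (s := (L : Set (ℕ → ℕ)))
    (t := {π : Equiv.Perm (Fin n) | ¬ Contains π ![3, 2, 1] ∧
      ∀ i, Function.minimalPeriod π i ∈ ({1, 2, 3} : Set ℕ)}) hg1 (fun f hf f' hf' e => by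
    funext i
    by_cases hi : i < n
    · rw [← hg2 f hf ⟨i, hi⟩, ← hg2 f' hf' ⟨i, hi⟩, e]
    · rw [(l2 f hf).out i (by omega), (l2 f' hf').out i (by omega)]) (Set.toFinite _)
  rw [Set.ncard_coe_finset] at this
  exact_mod_cast this

theorem main (n : ℕ) (hn : 600 ≤ n) : a {1, 2, 3} ![2, 3, 1] n < a {1, 2, 3} ![3, 2, 1] n := by
  have := ((upper n).trans_lt (numeric n hn)).trans_le (lower n)
  exact_mod_cast this

end Pool.Agent.MP_fa04ef_co
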